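import Pool.Agent.H933R2.HopfN.Int2

/-!
# Euler characteristic and flatness under integral (`L^{n/2}`) curvature pinching, all dimensions

For a closed Riemannian manifold `M` of dimension `n = 2 m` let `mean` be the mean of the sectional
curvatures at a point, `err` the difference of the curvature tensor and the tensor of constant
curvature `mean`, and `dev` the sum of the squared norms of `err` and of the trace-free Ricci
tensor. If the scalar curvature is nonpositive and
`∫ (550 sqrt dev)^m ≤ ∫ (m |mean|)^m` (a scale invariant condition, no pointwise pinching), then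
`(-1)^m χ(M)` lies between `1/2` and `3/2` times `(2m)!/((4π)^m m!) ∫ |mean|^m`; in particular
`χ(M) = 0` if and only if `M` is flat. So for aspherical `M` carrying such a metric, `χ(M) = 0`
implies that all `L²`-Betti numbers vanish, as Singer's conjecture predicts.
-/

open MeasureTheory Pool.Agent.H933R2.HopfN

namespace Pool.Agent.Results.MP_394d50_gt.IntegralPinching

theorem dev_nonneg {m : ℕ} {M : Type} (K : Geo m M) (p : M) : 0 ≤ K.dev p := by
  unfold Geo.dev hs4 hs2
  positivity

/-- (1) pointwise bound for every curvature tensor; (2) integral pinching; (3) nonpositive scalar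
curvature: two-sided bound for the Euler characteristic, which vanishes only in the flat case. -/
theorem result (m : ℕ) (hm : 2 ≤ m) (M : Type) (K : Geo m M) :
    (∀ p, |K.gbc p - roundGB m (K.mean p)| ≤ 9 / 10 * roundGB m 1 *
      ∑ j ∈ Finset.range (m - 1), (555 * Real.sqrt (K.dev p) / (2 * m)) ^ (j + 2) *
        |K.mean p| ^ (m - (j + 2))) ∧
    ∀ [MeasurableSpace M] (μ : Measure M), Integrable K.gbc μ →
      Integrable (fun p => K.mean p ^ m) μ → Integrable (fun p => Real.sqrt (K.dev p) ^ m) μ →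
      ∫ p, (550 * Real.sqrt (K.dev p)) ^ m ∂μ ≤ ∫ p, (m * |K.mean p|) ^ m ∂μ →
      |∫ p, K.gbc p ∂μ - ∫ p, roundGB m (K.mean p) ∂μ| ≤ 1 / 2 * ∫ p, roundGB m |K.mean p| ∂μ ∧
      ((∀ p, K.mean p ≤ 0) →
        1 / 2 * ∫ p, roundGB m |K.mean p| ∂μ ≤ (-1 : ℝ) ^ m * ∫ p, K.gbc p ∂μ ∧
        (-1 : ℝ) ^ m * ∫ p, K.gbc p ∂μ ≤ 3 / 2 * ∫ p, roundGB m |K.mean p| ∂μ ∧
        (∫ p, K.gbc p ∂μ = 0 ↔ ∀ᵐ p ∂μ, K.mean p = 0 ∧ K.dev p = 0)) := by
  refine ⟨fun p => K.cf.L2all hm p, ?_⟩
  intro _ μ hint hI hD hp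
  have h := K.int_L2 hm μ hint hI hD hp
  refine ⟨h, fun hn => ?_⟩
  obtain ⟨h1, h2, -⟩ := int_sign μ K hn hI h
  refine ⟨h1, h2, ?_, ?_⟩
  · intro h0
    rw [h0, mul_zero] at h1
    have hA : Integrable (fun p => |K.mean p| ^ m) μ := abs_pow_int hI
    have hr : ∫ p, roundGB m |K.mean p| ∂μ = roundGB m 1 * ∫ p, |K.mean p| ^ m ∂μ := by
      rw [← integral_const_mul]
      exact integral_congr_ae (Filter.Eventually.of_forall fun p => roundGB_one m _)
    have hc : 0 < roundGB m 1 := roundGB_pos one_pos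
    have hA0 : 0 ≤ ∫ p, |K.mean p| ^ m ∂μ := integral_nonneg fun p => by positivity
    have hA1 : ∫ p, |K.mean p| ^ m ∂μ = 0 := by
      rw [hr] at h1
      have : roundGB m 1 * ∫ p, |K.mean p| ^ m ∂μ ≤ 0 := by linarith
      nlinarith
    have hm1 : (fun p => |K.mean p| ^ m) =ᵐ[μ] 0 :=
      (integral_eq_zero_iff_of_nonneg (fun p => by positivity) hA).1 hA1
    have h3 : ∫ p, (m * |K.mean p|) ^ m ∂μ = 0 := by
      simp only [mul_pow]
      rw [integral_const_mul, hA1, mul_zero]
    have hD' : Integrable (fun p => (550 * Real.sqrt (K.dev p)) ^ m) μ := by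
      simp only [mul_pow]
      exact hD.const_mul _
    have h4 : ∫ p, (550 * Real.sqrt (K.dev p)) ^ m ∂μ = 0 :=
      le_antisymm (by rw [← h3]; exact hp) (integral_nonneg fun p => by positivity)
    have hm2 : (fun p => (550 * Real.sqrt (K.dev p)) ^ m) =ᵐ[μ] 0 :=
      (integral_eq_zero_iff_of_nonneg (fun p => by positivity) hD').1 h4
    filter_upwards [hm1, hm2] with p q1 q2
    simp only [Pi.zero_apply] at q1 q2
    have e1 : |K.mean p| = 0 := by
      rcases pow_eq_zero_iff (n := m) (by omega) |>.1 q1 with h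
      exact h
    have e2 : 550 * Real.sqrt (K.dev p) = 0 := (pow_eq_zero_iff (by omega)).1 q2
    have e3 : Real.sqrt (K.dev p) = 0 := by linarith
    exact ⟨abs_eq_zero.1 e1, (Real.sqrt_eq_zero (dev_nonneg K p)).1 e3⟩
  · intro h0
    rw [integral_eq_zero_of_ae]
    filter_upwards [h0] with p q
    have h5 := K.cf.L2all hm p
    have e1 : K.cf.mean p = 0 := q.1
    have e2 : K.cf.dev p = 0 := q.2
    rw [e1, e2, Real.sqrt_zero] at h5
    have e3 : roundGB m 0 = 0 := by
      unfold roundGB; rw [zero_pow (by omega)]; simp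
    rw [e3, sub_zero] at h5
    have e4 : ∑ j ∈ Finset.range (m - 1), (555 * (0:ℝ) / (2 * m)) ^ (j + 2) *
        |(0:ℝ)| ^ (m - (j + 2)) = 0 := by
      refine Finset.sum_eq_zero fun j _ => ?_
      rw [mul_zero, zero_div, zero_pow (by omega), zero_mul]
    rw [e4, mul_zero] at h5
    exact abs_eq_zero.1 (le_antisymm h5 (abs_nonneg _))

end Pool.Agent.Results.MP_394d50_gt.IntegralPinching
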