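import Pool.Agent.H933R2.Hopf.Sharp

/-!
# Nonzero Euler characteristic of pinched negatively curved manifolds of dimension six

If all sectional curvatures of an algebraic curvature tensor on a six dimensional Euclidean space
lie in `[-200/49 c, -c]` with `c > 0` (pinching 0.245, in particular quarter pinched), then the
Gauss-Bonnet-Chern integrand is at most its value for constant curvature `-c` (sharp); in
particular it is negative. So for a closed Riemannian 6-manifold whose curvature is so pinched at
every point (with `c` depending on the point), `χ < 0`; such a manifold is aspherical, and some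
`L²`-Betti number is nonzero: Q1 holds for it (both conditions of Q1 fail). For positive curvature
the opposite inequality holds.
-/

open MeasureTheory Hopf6

namespace Pool.Agent.Results.MP_394d50_gt.SharpNegativelyPinchedSix

/-- (1) the pointwise bounds, (2) equality for constant curvature, (3) the integral is negative
when the curvature is negatively pinched at every point, (4) the integrated sharp bound. -/
theorem result (M : Type) (K : CurvField M) :
    (∀ (p : M) (c : ℝ), 0 < c →
      (K.SecIn p (-(200 / 49 * c)) (-c) → K.gbc p ≤ -roundGB c) ∧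
      (K.SecIn p c (200 / 49 * c) → roundGB c ≤ K.gbc p)) ∧
    (∀ (c : ℝ) (p : M), gbc (K.e p) (cst (K.V p) c) = roundGB c) ∧
    (∀ [MeasurableSpace M] (μ : Measure M), μ ≠ 0 → Integrable K.gbc μ →
      (∀ p, ∃ c : ℝ, 0 < c ∧ K.SecIn p (-(200 / 49 * c)) (-c)) → ∫ p, K.gbc p ∂μ < 0) ∧
    ∀ [MeasurableSpace M] (μ : Measure M) [IsFiniteMeasure μ], Integrable K.gbc μ →
      ∀ c : ℝ, 0 < c → (∀ p, K.SecIn p (-(200 / 49 * c)) (-c)) →
        ∫ p, K.gbc p ∂μ ≤ -(roundGB c * μ.real Set.univ) := by
  refine ⟨fun p c hc => ⟨sixth_neg _ (K.curv p) hc, sixth_pos _ (K.curv p) hc⟩,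
    fun c p => gbc_cst _ c, ?_, ?_⟩
  · intro _ μ hμ hint h
    have h2 : ∀ p, 0 < -(K.gbc p) := fun p => by
      obtain ⟨c, hc, hs⟩ := h p
      have h4 := roundGB_pos hc
      have h5 : K.gbc p ≤ -roundGB c := sixth_neg _ (K.curv p) hc hs
      linarith
    have h3 : 0 < ∫ p, -(K.gbc p) ∂μ := by
      rw [integral_pos_iff_support_of_nonneg (fun p => (h2 p).le) hint.neg]
      have h4 : Function.support (fun p => -(K.gbc p)) = Set.univ := by
        ext p
        simp only [Function.mem_support, Set.mem_univ, iff_true]
        exact (h2 p).ne'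
      rw [h4]
      exact pos_iff_ne_zero.2 (fun h0 => hμ (Measure.measure_univ_eq_zero.1 h0))
    rw [integral_neg] at h3
    linarith
  · intro _ μ _ hint c hc h
    have h1 : ∫ p, K.gbc p ∂μ ≤ ∫ p, -roundGB c ∂μ :=
      integral_mono hint (integrable_const _) fun p => sixth_neg _ (K.curv p) hc (h p)
    rw [integral_const, smul_eq_mul] at h1
    linarith

end Pool.Agent.Results.MP_394d50_gt.SharpNegativelyPinchedSix
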